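import Pool.Agent.L7h72.AM.Stm2

/-!
# Project AM: the excess of the curve and of the tuple (`S_IMB`)
-/

set_option autoImplicit false
set_option linter.unusedSectionVars false

namespace Pool.Agent.L7h65.AM

open Finset Pool.Agent.W262.RK Pool.Agent.W307.RT Pool.Agent.W571.RT Pool.Agent.L7h19.RH
open Pool.Agent.L7h72.AM2

variable {J : Type} [Fintype J] [DecidableEq J]

lemma exc_le {a b A B : Fin 3 → ℕ} {w Δ : ℕ} (hab : ∀ c, a c ≤ b c) (h1 : ∀ c, a c ≤ A c + w)
    (h2 : ∀ c, B c ≤ b c + Δ) : exc a b ≤ exc A B + w + 2 * Δ := by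
  have a0 := hab 0
  have a1 := hab 1
  have a2 := hab 2
  have b0 := h1 0
  have b1 := h1 1
  have b2 := h1 2
  have c0 := h2 0
  have c1 := h2 1
  have c2 := h2 2
  unfold exc
  omega

lemma sp3_eq (D : ℤ) (F : Fin 3 → ℤ) (c : Fin 3) :
    sp3 D F c = spl (F c) (sgM c.castSucc * (D * F (cpM c.castSucc))) := by
  have h : c = 0 ∨ c = 1 ∨ c = 2 := by
    revert c
    decide
  unfold sp3
  rcases h with rfl | rfl | rfl
  · rw [if_pos rfl, show sgM (Fin.castSucc (0 : Fin 3)) = -1 from rfl,
      show cpM (Fin.castSucc (0 : Fin 3)) = 1 from rfl, neg_one_mul]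
  · rw [if_neg (by decide), if_pos rfl, show sgM (Fin.castSucc (1 : Fin 3)) = -1 from rfl,
      show cpM (Fin.castSucc (1 : Fin 3)) = 0 from rfl, neg_one_mul]
  · rw [if_neg (by decide), if_neg (by decide), show sgM (Fin.castSucc (2 : Fin 3)) = 1 from rfl,
      show cpM (Fin.castSucc (2 : Fin 3)) = 0 from rfl, one_mul]

/-- **IMB** -/
theorem s_IMB : S_IMB := by
  classical
  intro J _ _ cls a μ α β z ha0 haz hμ hB hodd X y k u v huv h0 hb hX hy hk D hD0
  have ha : ∀ p : ℕ, p.Prime → z < p → ∀ k, ¬ (p : ℤ) ∣ a k := by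
    intro p hp hzp i hd
    have h2 := Nat.le_of_dvd (Int.natAbs_pos.2 (ha0 i)) (Int.natCast_dvd.1 hd)
    have h3 := haz i
    omega
  set f := fv α β u v with hf
  set F := FM (c4 cls) a μ f with hF
  have hFne : ∀ k, F k ≠ 0 := fun k =>
    mul_ne_zero (ha0 k) (prod_ne_zero_iff.2 fun l _ => pow_ne_zero _ (h0 l))
  set s := S1 z y f with hs
  set E := ES cls a μ α β D s v with hE
  have hmem : s ∈ Tup J z y := S1_mem (fun p hp hzp j l hjl h =>
    fv_not_dvd hB hp hzp huv hjl h.1 h.2)
  have hcop := (mem_Tup'.1 hmem).2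
  have hne0 : ∀ j, s j ≠ 0 := by
    intro j
    rw [hs]
    exact prod_ne_zero_iff.2 fun p hp => (mem_PS.1 (mem_filter.1 hp).1).2.ne_zero
  have hprod0 : ∏ j, s j ≠ 0 := prod_ne_zero_iff.2 fun j _ => hne0 j
  have hfc : ∀ j c, j ∈ fc (c4 cls) c ↔ cls j = c := by
    intro j c
    unfold fc c4
    rw [mem_filter]
    exact ⟨fun h => Fin.castSucc_injective _ h.2, fun h => ⟨mem_univ _, by rw [h]⟩⟩
  have hdisj : ∀ c, Set.PairwiseDisjoint (↑(univ.filter (fun j => cls j = c)) : Set J)
      (fun j => (s j).primeFactors) := by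
    intro c i _ j _ hij
    exact (hcop i j hij).disjoint_primeFactors
  have hdisj' : ∀ c, Set.PairwiseDisjoint (↑(univ.filter (fun j => cls j = c)) : Set J)
      (fun j => (s j).primeFactors.filter (fun p => p ∉ E)) := by
    intro c i hi j hj hij
    exact (hdisj c hi hj hij).mono (filter_subset _ _) (filter_subset _ _)
  have hdvF : ∀ p j, p ∈ (s j).primeFactors → p ∈ (F (cls j)).natAbs.primeFactors := by
    intro p j hp
    have hpp := Nat.prime_of_mem_primeFactors hp
    have h1 := (S1_dvd_iff hpp).1 (Nat.dvd_of_mem_primeFactors hp)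
    rw [Nat.mem_primeFactors]
    refine ⟨hpp, Int.natCast_dvd.1 ?_, Int.natAbs_ne_zero.2 (hFne _)⟩
    rw [hF]
    unfold FM
    rw [← mul_prod_erase _ _ ((hfc j (cls j)).2 rfl)]
    apply Dvd.dvd.mul_left
    apply Dvd.dvd.mul_right
    exact dvd_pow h1.2.1 (hμ j).pos.ne'
  obtain ⟨Δ, hΔ⟩ : ∃ Δ : ℕ, Δ = ∑ j, (S2 z y f j).primeFactors.card + z + 2 * k * Fintype.card J :=
    ⟨_, rfl⟩
  have key : ibE cls s E ≤ ibz D F + D.natAbs.primeFactors.card + 2 * Δ := by
    unfold ibE ibz
    apply exc_le
    · intro c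
      unfold nus nu
      exact sum_le_sum fun j _ => card_le_card (filter_subset _ _)
    · intro c
      rw [sp3_eq]
      unfold nus spl
      rw [← card_biUnion (hdisj' c)]
      refine (card_le_card ?_).trans (card_union_le _ _)
      intro p hp
      rw [mem_biUnion] at hp
      obtain ⟨j, hj, hp⟩ := hp
      rw [mem_filter] at hj hp
      obtain ⟨hp, hpE⟩ := hp
      have hpp := Nat.prime_of_mem_primeFactors hp
      have hpd := Nat.dvd_of_mem_primeFactors hp
      have h1 := (S1_dvd_iff hpp).1 hpd
      have hpF := hdvF p j hp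
      rw [hj.2] at hpF
      rw [mem_union]
      by_cases hD : (p : ℤ) ∣ D
      · right
        rw [Nat.mem_primeFactors]
        exact ⟨hpp, Int.natCast_dvd.1 hD, Int.natAbs_ne_zero.2 hD0⟩
      left
      rw [mem_filter]
      refine ⟨hpF, ?_⟩
      have hzp := (mem_PS.1 h1.1).1.1
      have hsy := symbH (cls := cls) (μ := μ) hB ha hodd hpp hzp huv h1.2.1 hD
      have hc4 : c4 cls j = c.castSucc := by
        unfold c4
        rw [hj.2]
      rw [hc4] at hsy
      have hpi : Prime (p : ℤ) := Nat.prime_iff_prime_int.1 hpp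
      have hkv : ¬ (p : ℤ) ∣ kc cls a μ α β D j * v := by
        intro h
        rw [jacobiSym.mul_left, jacobiSym.mod_left' (Int.modEq_zero_iff_dvd.2 h)] at hsy
        have : Fact (1 < p) := ⟨hpp.one_lt⟩
        rw [jacobiSym.zero_left hpp.one_lt, zero_mul] at hsy
        exact absurd hsy (by norm_num)
      have hkc : ¬ (p : ℤ) ∣ kc cls a μ α β D j := fun h => hkv (h.mul_right _)
      have hv : ¬ (p : ℤ) ∣ v := fun h => hkv (h.mul_left _)
      have hx : xor (sg0 p (kc cls a μ α β D j)) (sg0 p v) = false := by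
        by_contra hcon
        apply hpE
        rw [hE]
        unfold ES
        rw [mem_filter]
        refine ⟨?_, j, hpd, ?_⟩
        · unfold Q0
          rw [Nat.mem_primeFactors]
          exact ⟨hpp, hpd.trans (dvd_prod_of_mem _ (mem_univ j)), hprod0⟩
        · simpa using hcon
      rw [← sg0_mul hpp hkc hv] at hx
      unfold sg0 at hx
      rw [decide_eq_false_iff_not] at hx
      have hone : jacobiSym (kc cls a μ α β D j * v) p = 1 := by
        rcases jacobiSym.eq_one_or_neg_one (a := kc cls a μ α β D j * v) (b := p) (by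
          rw [← Int.isCoprime_iff_gcd_eq_one]
          exact IsCoprime.symm ((Prime.coprime_iff_not_dvd hpi).2 hkv)) with h | h
        · exact h
        · exact absurd h hx
      rw [jacobiSym.mul_left, hone, one_mul] at hsy
      exact hsy
    · intro c
      have hbad := badM (cls := c4 cls) (μ := μ) (y := y) hB ha hX hy h0 hb hk
      rw [← hf, ← hs, ← hF] at hbad
      have h3 : (F c).natAbs.primeFactors ⊆
          (univ.filter (fun j => cls j = c)).biUnion (fun j => (s j).primeFactors) ∪
          ((2 * F 0 * F 1 * F 2).natAbs.primeFactors.filter (fun q => ¬ q ∣ ∏ j, s j)) := by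
        intro q hq
        have hqp := Nat.prime_of_mem_primeFactors hq
        have hqd := Nat.dvd_of_mem_primeFactors hq
        rw [mem_union]
        by_cases hqs : q ∣ ∏ j, s j
        · left
          obtain ⟨j, -, hj⟩ := (hqp.prime.dvd_finsetProd_iff _).1 hqs
          rw [mem_biUnion]
          refine ⟨j, ?_, ?_⟩
          · rw [mem_filter]
            refine ⟨mem_univ _, ?_⟩
            by_contra hcj
            have h1 := (S1_dvd_iff hqp).1 hj
            exact ndM hB ha hqp (mem_PS.1 h1.1).1.1 huv h1.2.1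
              (fun h => hcj ((hfc j c).1 h)) (Int.natCast_dvd.2 hqd)
          · rw [Nat.mem_primeFactors]
            exact ⟨hqp, hj, hne0 j⟩
        · right
          rw [mem_filter, Nat.mem_primeFactors]
          refine ⟨⟨hqp, ?_, ?_⟩, hqs⟩
          · apply Int.natCast_dvd.1
            have h4 : (q : ℤ) ∣ F c := Int.natCast_dvd.2 hqd
            have h5 : c = 0 ∨ c = 1 ∨ c = 2 := by
              clear * -
              revert c
              decide
            rcases h5 with h5 | h5 | h5 <;> rw [h5] at h4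
            · exact ((h4.mul_left 2).mul_right _).mul_right _
            · exact (h4.mul_left _).mul_right _
            · exact h4.mul_left _
          · apply Int.natAbs_ne_zero.2
            exact mul_ne_zero (mul_ne_zero (mul_ne_zero (by norm_num) (hFne 0)) (hFne 1)) (hFne 2)
      have h4 := (card_le_card h3).trans (card_union_le _ _)
      rw [card_biUnion (hdisj c)] at h4
      have h5 : (F c).natAbs.primeFactors.card ≤ nu cls s c +
          (z + Fintype.card J * (2 * k) + ∑ j, (S2 z y f j).primeFactors.card) :=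
        h4.trans (Nat.add_le_add_left hbad _)
      refine h5.trans (le_of_eq ?_)
      rw [hΔ]
      ring
  rw [hΔ] at key
  exact key

end Pool.Agent.L7h65.AM
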